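import Pool.Agent.TMX.Stmts

/-! Squad TMX, row Gain. -/

namespace Pool.Agent.TMX.H75

open Finset Pool.Agent.TMX
open Pool.Agent.Helper51_Max (I IsMax)

/-- the ball inequality, shifted by `u` -/
theorem ball_ge {N : ℕ} {g M : ℕ → ℝ} (h : IsMax N g M) {v : ℕ} (hv : v ≤ N) (u : ℝ)
    {ρ a e : ℕ} (hI : I N v ρ = Icc a e) (hae : a ≤ e + 1) :
    ∑ i ∈ Icc a e, (g i - u) ≤ ((e : ℝ) + 1 - a) * (M v - u) := by
  have h1 := h.le v hv ρ
  rw [hI, Nat.card_Icc, Nat.cast_sub hae] at h1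
  rw [sum_sub_distrib, sum_const, Nat.card_Icc, nsmul_eq_mul, Nat.cast_sub hae]
  push_cast at h1 ⊢
  linarith

theorem gain : Gain := by
  intro tan gapS gapI t12 xb bgap N g M k w l hM hB hu0 hu y z z' r hky hyz hzz' hz'l hMy hMz' hm1
    hm2 hopt
  have hkw := hB.kw
  have hwl := hB.wl
  have hlN := hB.lN
  have hgM : ∀ v, v ≤ N → g v ≤ M v := fun v hv => Helper37_EM.g_le hM hv
  have hmax : ∀ i, y ≤ i → i ≤ z' → g i ≤ max (M y) (M z') := by
    intro i h1 h2
    by_cases hi : i ≤ w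
    · exact le_max_of_le_left ((hB.dn1 y i hky h1 hi).trans (hgM y (by omega)))
    · exact le_max_of_le_right ((hB.up2 i z' (by omega) h2 hz'l).trans (hgM z' (by omega)))
  obtain ⟨hrz, heN, hzyr, hz'e, hz'yr, -, j, hje, hz'j, hyj, hMj⟩ :=
    gapS tan N g M hM y z z' r hyz hzz' (by omega) hMy hMz' hopt hmax
  obtain ⟨hzk, -⟩ := t12 tan gapS N g M k w l hM hB y z z' r hky hyz hzz' hz'l hMy hMz' hm1 hm2 hopt
  have hX := xb tan gapS t12 N g M k w l hM hB hu0 hu y z z' r hky hyz hzz' hz'l hMy hMz' hm1 hm2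
    hopt
  have hBG := bgap tan gapS gapI N g M k w l hM hB y z z' hky hyz hzz' hz'l hMy hMz'
  have hyu : g w ≤ M y := (hu y (by omega)).trans (hgM y (by omega))
  have hz'u : g w ≤ M z' := (hu z' (by omega)).trans (hgM z' (by omega))
  -- the ball of z
  have hIz : I N z r = Icc (z - r) (z + r) := by
    unfold Helper51_Max.I
    rw [min_eq_left (by omega)]
  have hG : ∑ i ∈ Icc (z - r) (z + r), (g i - g w) = (2 * (r : ℝ) + 1) * (M z - g w) := by
    rw [hIz, Nat.card_Icc, Nat.cast_sub (by omega)] at hopt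
    rw [sum_sub_distrib, sum_const, Nat.card_Icc, nsmul_eq_mul, Nat.cast_sub (by omega)]
    rw [← hopt, Nat.cast_sub (by omega : r ≤ z)]
    push_cast
    ring
  -- F1
  have hI1 : I N y (r + (z - y)) = Icc (y - (r + (z - y))) (z + r) := by
    unfold Helper51_Max.I
    rw [min_eq_left (by omega)]
    congr 1
    omega
  have F1a := ball_ge hM (by omega : y ≤ N) (g w) hI1 (by omega)
  have F1b : ∑ i ∈ Icc (z - r) (z + r), (g i - g w) ≤
      ∑ i ∈ Icc (y - (r + (z - y))) (z + r), (g i - g w) := by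
    apply sum_le_sum_of_subset_of_nonneg
    · intro i hi
      rw [mem_Icc] at hi ⊢
      omega
    · intro i hi hi'
      rw [mem_Icc] at hi hi'
      have := hu i (by omega)
      linarith
  have F1c : ((z + r : ℕ) : ℝ) + 1 - ((y - (r + (z - y)) : ℕ) : ℝ) ≤
      2 * (r : ℝ) + 1 + 2 * ((z : ℝ) - y) := by
    have h1 : z + r + 1 ≤ 2 * r + 1 + 2 * (z - y) + (y - (r + (z - y))) := by omega
    have h2 : ((z + r + 1 : ℕ) : ℝ) ≤
        ((2 * r + 1 + 2 * (z - y) + (y - (r + (z - y))) : ℕ) : ℝ) := by exact_mod_cast h1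
    push_cast [Nat.cast_sub (by omega : y ≤ z)] at h2
    push_cast
    linarith
  have F1 : (2 * (r : ℝ) + 1) * (M z - g w) ≤
      (2 * (r : ℝ) + 1 + 2 * ((z : ℝ) - y)) * (M y - g w) := by
    rw [← hG]
    refine F1b.trans (F1a.trans ?_)
    exact mul_le_mul_of_nonneg_right F1c (by linarith)
  -- F2
  have hI2 : I N y (y + r - z) = Icc (z - r) (2 * y + r - z) := by
    unfold Helper51_Max.I
    rw [min_eq_left (by omega)]
    congr 1 <;> omega
  have F2a := ball_ge hM (by omega : y ≤ N) (g w) hI2 (by omega)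
  have F2b : ∑ i ∈ Icc (z - r) (z + r), (g i - g w) ≤
      ∑ i ∈ Icc (z - r) (2 * y + r - z), (g i - g w) +
        ∑ i ∈ Icc (2 * z' - (z + r)) (z + r), (g i - g w) := by
    rw [← sum_union_inter]
    have hun : Icc (z - r) (2 * y + r - z) ∪ Icc (2 * z' - (z + r)) (z + r) =
        Icc (z - r) (z + r) := by
      ext i
      rw [mem_union, mem_Icc, mem_Icc, mem_Icc]
      omega
    rw [hun]
    have hin : 0 ≤ ∑ i ∈ Icc (z - r) (2 * y + r - z) ∩ Icc (2 * z' - (z + r)) (z + r),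
        (g i - g w) := by
      apply sum_nonneg
      intro i hi
      rw [mem_inter, mem_Icc, mem_Icc] at hi
      by_cases hil : i ≤ l
      · have := hu i hil
        linarith
      · have h1 := hB.dn2 i j (by omega) (by omega) (by omega)
        linarith
    linarith
  have F2c : ((2 * y + r - z : ℕ) : ℝ) + 1 - ((z - r : ℕ) : ℝ) =
      2 * (r : ℝ) + 1 - 2 * ((z : ℝ) - y) := by
    rw [Nat.cast_sub (by omega), Nat.cast_sub (by omega)]
    push_cast
    ring
  rw [F2c] at F2a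
  -- F3
  have hI3 : I N z' (z + r - z') = Icc (2 * z' - (z + r)) (z + r) := by
    unfold Helper51_Max.I
    rw [min_eq_left (by omega)]
    congr 1 <;> omega
  have F3a := ball_ge hM (by omega : z' ≤ N) (g w) hI3 (by omega)
  have F3c : ((z + r : ℕ) : ℝ) + 1 - ((2 * z' - (z + r) : ℕ) : ℝ) ≤ 2 * (r : ℝ) + 1 := by
    rw [Nat.cast_sub (by omega)]
    have : (z : ℝ) < z' := by exact_mod_cast hzz'
    push_cast
    linarith
  have F3 : ∑ i ∈ Icc (2 * z' - (z + r)) (z + r), (g i - g w) ≤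
      (2 * (r : ℝ) + 1) * (M z' - g w) :=
    F3a.trans (mul_le_mul_of_nonneg_right F3c (by linarith))
  have hq : 2 * (r : ℝ) + 1 ≤ (N : ℝ) + 1 := by
    have : 2 * r ≤ N := by omega
    have : ((2 * r : ℕ) : ℝ) ≤ N := by exact_mod_cast this
    push_cast at this
    linarith
  have hfin := mul_le_mul_of_nonneg_right hq (by linarith : 0 ≤ M y + M z' - M z - g w)
  have key : g l - 2 * g w ≤ 2 * ((2 * (r : ℝ) + 1) * (M y + M z' - M z - g w)) := by
    rw [hG] at F2b
    nlinarith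
  linarith

end Pool.Agent.TMX.H75
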